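import Pool.Statements.S00360
import Pool.Agent.Helper53K9.GC.DimGrade
import Pool.Agent.H841.PSRes
import Pool.Agent.H594.PSRegP
import Pool.Agent.H291R3.PSB.Base

set_option autoImplicit false
open Pool Pool.MP_a907e8_ag

namespace Pool.Agent.S00360

/-- The negation of the preceding statement: For every Noetherian local ring A and nonzero finitely generated A-module M with a finite projective resolution, the maximal length of an A-regular sequence in ann M plus the Krull dimension of A/ann M equals the Krull dimension of A. -/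
theorem result :
    ¬ (∀ (A : Type) [CommRing A] [IsLocalRing A] [IsNoetherianRing A]
      (M : Type) [AddCommGroup M] [Module A M] [Module.Finite A M] [Nontrivial M],
      (∃ P : CategoryTheory.ProjectiveResolution (ModuleCat.of A M), ∃ n : ℕ,
          ∀ i : ℕ, n ≤ i → CategoryTheory.Limits.IsZero (P.complex.X i)) →
      ∀ g : ℕ,
        (∃ rs : List A, rs.length = g ∧ (∀ r ∈ rs, r ∈ Module.annihilator A M) ∧
            RingTheory.Sequence.IsWeaklyRegular A rs) →
        (¬ ∃ rs : List A, rs.length = g + 1 ∧ (∀ r ∈ rs, r ∈ Module.annihilator A M) ∧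
            RingTheory.Sequence.IsWeaklyRegular A rs) →
        (g : WithBot ℕ∞) + ringKrullDim (A ⧸ Module.annihilator A M) = ringKrullDim A) := by
  intro H
  obtain ⟨T, _, _, _, _, α, β, γ, hB⟩ := Pool.Agent.H291R3.PSB.taskBase
  obtain ⟨hα, hβ, hγ⟩ := H51R3.PS.mem_max hB
  have hlR : IsLocalRing (Pool.Agent.H607R3.PS.RR T α β γ) :=
    Pool.Agent.H607R3.PS.taskLoc T α β γ hα hβ hγ
  have hl : IsLocalRing (Pool.Agent.H607R3.PS.RP T α β γ) := Pool.Agent.H607R3.PS.local_RP
  have hn : IsNoetherianRing (Pool.Agent.H607R3.PS.RP T α β γ) := Pool.Agent.H607R3.PS.noeth_RP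
  have hnt : Nontrivial (Pool.Agent.H607R3.PS.RP T α β γ ⧸ Pool.Agent.H607R3.PS.cP T α β γ) :=
    Ideal.Quotient.nontrivial_iff.mpr (Pool.Agent.H607R3.PS.cP_ne_top hα hβ hγ)
  have hres := Pool.Agent.H607R3.PS.finRes_RP Pool.Agent.H607R3.PS.taskRes
    Pool.Agent.H607R3.PS.taskRegP hγ hB.reg
  have hreg := Pool.Agent.H607R3.PS.taskRegP T α β γ hB.reg
  have hann : Module.annihilator (Pool.Agent.H607R3.PS.RP T α β γ)
      (Pool.Agent.H607R3.PS.RP T α β γ ⧸ Pool.Agent.H607R3.PS.cP T α β γ) =
      Pool.Agent.H607R3.PS.cP T α β γ := Ideal.annihilator_quotient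
  have h := H (Pool.Agent.H607R3.PS.RP T α β γ)
    (Pool.Agent.H607R3.PS.RP T α β γ ⧸ Pool.Agent.H607R3.PS.cP T α β γ) hres 2
    ⟨[Pool.Agent.H607R3.PS.toRP (Pool.Agent.H607R3.PS.RR.emb α) ^ 4,
      Pool.Agent.H607R3.PS.toRP (Pool.Agent.H607R3.PS.RR.emb β) ^ 2], rfl, by
        intro r hr
        rw [hann]
        simp only [List.mem_cons, List.not_mem_nil, or_false] at hr
        rcases hr with rfl | rfl
        · exact Pool.Agent.H607R3.PS.mem_F
        · exact Pool.Agent.H607R3.PS.mem_G,
      Pool.Agent.H607R3.PS.weaklyRegular_pair hreg⟩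
    (by
      rw [hann]
      exact Pool.Agent.Helper53K9.GC.taskGradeP T α β γ hB)
  have hdim := Pool.Agent.Helper53K9.GC.taskDimP T α β γ hB
  rw [hann] at h
  exact absurd h (ne_of_lt hdim)

end Pool.Agent.S00360
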