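import Pool.Statements.S02538
import Mathlib

set_option autoImplicit false
open Pool Pool.MP_a19302_al

namespace Pool.Agent.S02538

/-! The algebra generated by two partial shifts `X`, `Y`; it is the monomial algebra whose nonzero
words are the factors of the words `(x y^m)^m x`. -/

/-- The space on which the algebra acts. -/
abbrev V : Type := ℕ → ℕ → ℕ → ℚ

/-- The operator `Y`. -/
def Y : Module.End ℚ V where
  toFun φ := fun m r c => if r = 0 then 0 else φ m (r - 1) c
  map_add' φ ψ := by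
    funext m r c
    by_cases h : r = 0 <;> simp [h]
  map_smul' t φ := by
    funext m r c
    by_cases h : r = 0 <;> simp [h]

/-- The operator `X`. -/
def X : Module.End ℚ V where
  toFun φ := fun m r c => if r = 0 ∧ 1 ≤ c ∧ c ≤ m then φ m m (c - 1) else 0
  map_add' φ ψ := by
    funext m r c
    by_cases h : r = 0 ∧ 1 ≤ c ∧ c ≤ m <;> simp [h]
  map_smul' t φ := by
    funext m r c
    by_cases h : r = 0 ∧ 1 ≤ c ∧ c ≤ m <;> simp [h]

lemma Y_apply (φ : V) (m r c : ℕ) : Y φ m r c = if r = 0 then 0 else φ m (r - 1) c := rfl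

lemma X_apply (φ : V) (m r c : ℕ) :
    X φ m r c = if r = 0 ∧ 1 ≤ c ∧ c ≤ m then φ m m (c - 1) else 0 := rfl

lemma Y_pow_apply (a : ℕ) (φ : V) (m r c : ℕ) :
    (Y ^ a) φ m r c = if a ≤ r then φ m (r - a) c else 0 := by
  induction a generalizing φ r with
  | zero => simp
  | succ a ih =>
    rw [pow_succ', Module.End.mul_apply, Y_apply]
    by_cases h : r = 0
    · subst h; simp
    · rw [if_neg h, ih]
      by_cases h2 : a ≤ r - 1
      · rw [if_pos h2, if_pos (by omega)]
        congr 1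
        omega
      · rw [if_neg h2, if_neg (by omega)]

lemma XYX (a m r c : ℕ) (φ : V) :
    (X * Y ^ a * X) φ m r c =
      if r = 0 ∧ 2 ≤ c ∧ c ≤ m ∧ a = m then φ m m (c - 2) else 0 := by
  rw [Module.End.mul_apply, Module.End.mul_apply, X_apply]
  by_cases h : r = 0 ∧ 1 ≤ c ∧ c ≤ m
  · rw [if_pos h, Y_pow_apply]
    by_cases h2 : a ≤ m
    · rw [if_pos h2, X_apply]
      by_cases h3 : m - a = 0 ∧ 1 ≤ c - 1 ∧ c - 1 ≤ m
      · rw [if_pos h3, if_pos (by omega)]
        congr 1
      · rw [if_neg h3, if_neg (by omega)]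
    · rw [if_neg h2, if_neg (by omega)]
  · rw [if_neg h, if_neg (by omega)]

lemma rel1 (a b : ℕ) (h : a ≠ b) : X * Y ^ a * X * Y ^ b * X = 0 := by
  apply LinearMap.ext
  intro φ
  funext m r c
  have e : X * Y ^ a * X * Y ^ b * X = (X * Y ^ a) * (X * Y ^ b * X) := by
    simp only [mul_assoc]
  rw [e, Module.End.mul_apply, Module.End.mul_apply, X_apply]
  show _ = (0 : ℚ)
  by_cases h1 : r = 0 ∧ 1 ≤ c ∧ c ≤ m
  · rw [if_pos h1, Y_pow_apply]
    by_cases h2 : a ≤ m
    · rw [if_pos h2, XYX, if_neg]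
      omega
    · rw [if_neg h2]
  · rw [if_neg h1]

lemma g_apply (n : ℕ) (N : ℕ) (hN : 1 ≤ N) (φ : V) (m r c : ℕ) :
    ((X * Y ^ n) ^ N * X) φ m r c =
      if r = 0 ∧ N + 1 ≤ c ∧ c ≤ m ∧ n = m then φ m m (c - (N + 1)) else 0 := by
  induction N generalizing φ r c with
  | zero => omega
  | succ N ih =>
    by_cases hN0 : N = 0
    · subst hN0
      simp only [zero_add, pow_one]
      rw [XYX]
    · rw [pow_succ', mul_assoc, Module.End.mul_apply, Module.End.mul_apply, X_apply]
      by_cases h1 : r = 0 ∧ 1 ≤ c ∧ c ≤ m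
      · rw [if_pos h1, Y_pow_apply]
        by_cases h2 : n ≤ m
        · rw [if_pos h2, ih (by omega)]
          by_cases h3 : m - n = 0 ∧ N + 1 ≤ c - 1 ∧ c - 1 ≤ m ∧ n = m
          · rw [if_pos h3, if_pos (by omega)]
            congr 1
            omega
          · rw [if_neg h3, if_neg (by omega)]
        · rw [if_neg h2, if_neg (by omega)]
      · rw [if_neg h1, if_neg (by omega)]

lemma rel2 (n : ℕ) (hn : 1 ≤ n) : (X * Y ^ n) ^ n * X = 0 := by
  apply LinearMap.ext
  intro φ
  funext m r c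
  rw [g_apply n n hn, if_neg]
  · rfl
  · omega

lemma pow_apply (m j : ℕ) (φ : V) (c : ℕ) (h : c + j ≤ m) :
    ((X * Y ^ m) ^ j) φ m 0 (c + j) = φ m 0 c := by
  induction j with
  | zero => simp
  | succ j ih =>
    rw [pow_succ', Module.End.mul_apply, Module.End.mul_apply, X_apply, if_pos (by omega),
      Y_pow_apply, if_pos le_rfl, Nat.sub_self]
    have := ih (by omega)
    rw [← this]
    congr 1

lemma pow_ne_zero' (m j : ℕ) (h : j ≤ m) : (X * Y ^ m) ^ j ≠ 0 := by
  intro h0
  have h1 := pow_apply m j (fun _ _ _ => 1) 0 (by omega)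
  rw [h0] at h1
  have h2 : (0 : ℚ) = 1 := h1
  exact zero_ne_one h2

/-- The algebra. -/
abbrev S : Subalgebra ℚ (Module.End ℚ V) := Algebra.adjoin ℚ {X, Y}

/-- The generator `x`. -/
def x : S := ⟨X, Algebra.subset_adjoin (by simp)⟩
/-- The generator `y`. -/
def y : S := ⟨Y, Algebra.subset_adjoin (by simp)⟩

lemma adjoin_xy : Algebra.adjoin ℚ ({x, y} : Set S) = ⊤ := by
  have h := Algebra.adjoin_adjoin_coe_preimage (R := ℚ) (s := ({X, Y} : Set (Module.End ℚ V)))
  rw [← h]
  congr 1
  ext ⟨z, hz⟩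
  simp only [Set.mem_insert_iff, Set.mem_singleton_iff, Set.mem_preimage, x, y, Subtype.mk.injEq]

lemma left_induction (Q : S → Prop) (h1 : Q 1) (hadd : ∀ a b, Q a → Q b → Q (a + b))
    (hsmul : ∀ (t : ℚ) a, Q a → Q (t • a)) (hx : ∀ a, Q a → Q (x * a)) (hy : ∀ a, Q a → Q (y * a)) :
    ∀ w, Q w := by
  have key : ∀ w ∈ Algebra.adjoin ℚ ({x, y} : Set S), ∀ v, Q v → Q (w * v) := by
    intro w hw
    induction hw using Algebra.adjoin_induction with
    | mem z hz =>
      intro v hv
      rcases hz with rfl | hz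
      · exact hx v hv
      · rw [Set.mem_singleton_iff] at hz
        subst hz
        exact hy v hv
    | algebraMap r =>
      intro v hv
      rw [← Algebra.smul_def]
      exact hsmul r v hv
    | add a b _ _ ha hb =>
      intro v hv
      rw [add_mul]
      exact hadd _ _ (ha v hv) (hb v hv)
    | mul a b _ _ ha hb =>
      intro v hv
      rw [mul_assoc]
      exact ha _ (hb v hv)
  intro w
  have := key w (by rw [adjoin_xy]; trivial) 1 h1
  rwa [mul_one] at this

lemma relx1 (a b : ℕ) (h : a ≠ b) : x * y ^ a * x * y ^ b * x = 0 :=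
  Subtype.ext (rel1 a b h)

lemma relx2 (n : ℕ) (hn : 1 ≤ n) : (x * y ^ n) ^ n * x = 0 :=
  Subtype.ext (rel2 n hn)

lemma relx3 (m j : ℕ) (h : j ≤ m) : (x * y ^ m) ^ j ≠ 0 := by
  intro h0
  apply pow_ne_zero' m j h
  exact congrArg Subtype.val h0

/-- the words `(x y^m)^N x` -/
def g (m N : ℕ) : S := (x * y ^ m) ^ N * x

lemma g_succ (m N : ℕ) : g m (N + 1) = g m N * y ^ m * x := by
  unfold g
  rw [pow_succ]
  simp only [mul_assoc]

lemma g_ne (m N : ℕ) (hN : 1 ≤ N) (a : ℕ) (h : a ≠ m) : g m N * y ^ a * x = 0 := by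
  obtain ⟨N, rfl⟩ : ∃ k, N = k + 1 := ⟨N - 1, by omega⟩
  unfold g
  have h1 := relx1 m a (Ne.symm h)
  calc (x * y ^ m) ^ (N + 1) * x * y ^ a * x
      = (x * y ^ m) ^ N * (x * y ^ m * x * y ^ a * x) := by
        rw [pow_succ]; simp only [mul_assoc]
    _ = 0 := by rw [h1, mul_zero]

/-- the ideal generated by `(x y^m)^N x` -/
def J (m N : ℕ) : TwoSidedIdeal S := TwoSidedIdeal.span {g m N}

lemma g_mem (m N : ℕ) : g m N ∈ J m N := TwoSidedIdeal.subset_span (Set.mem_singleton _)

lemma key (m N : ℕ) (hN : 1 ≤ N) (w : S) : ∀ a : ℕ, g m N * y ^ a * w * g m 1 ∈ J m (N + 1) := by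
  have hmem : ∀ z : S, g m (N + 1) * z ∈ J m (N + 1) := fun z =>
    TwoSidedIdeal.mul_mem_right _ _ _ (g_mem m (N + 1))
  refine left_induction (fun w => ∀ a : ℕ, g m N * y ^ a * w * g m 1 ∈ J m (N + 1)) ?_ ?_ ?_ ?_ ?_ w
  · intro a
    rw [mul_one]
    by_cases h : a = m
    · subst h
      have e : g a N * y ^ a * g a 1 = g a (N + 1) * (y ^ a * x) := by
        rw [g_succ a N, show g a 1 = x * y ^ a * x by simp [g]]
        simp only [mul_assoc]
      rw [e]
      exact hmem _
    · have e : g m N * y ^ a * g m 1 = (g m N * y ^ a * x) * (y ^ m * x) := by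
        rw [show g m 1 = x * y ^ m * x by simp [g]]
        simp only [mul_assoc]
      rw [e, g_ne m N hN a h, zero_mul]
      exact TwoSidedIdeal.zero_mem _
  · intro u v hu hv a
    rw [mul_add, add_mul]
    exact TwoSidedIdeal.add_mem _ (hu a) (hv a)
  · intro t u hu a
    have e : g m N * y ^ a * (t • u) * g m 1 = (t • (1 : S)) * (g m N * y ^ a * u * g m 1) := by
      simp
    rw [e]
    exact TwoSidedIdeal.mul_mem_left _ _ _ (hu a)
  · intro u hu a
    by_cases h : a = m
    · subst h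
      have e : g a N * y ^ a * (x * u) * g a 1 = g a (N + 1) * (u * g a 1) := by
        rw [g_succ a N]
        simp only [mul_assoc]
      rw [e]
      exact hmem _
    · have e : g m N * y ^ a * (x * u) * g m 1 = (g m N * y ^ a * x) * (u * g m 1) := by
        simp only [mul_assoc]
      rw [e, g_ne m N hN a h, zero_mul]
      exact TwoSidedIdeal.zero_mem _
  · intro u hu a
    have e : g m N * y ^ a * (y * u) * g m 1 = g m N * y ^ (a + 1) * u * g m 1 := by
      rw [pow_succ]
      simp only [mul_assoc]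
    rw [e]
    exact hu (a + 1)

section colon

variable {A : Type} [Ring A]

/-- the elements `b` such that `a w b ∈ K` for all `w` -/
def colonR (K : TwoSidedIdeal A) (a : A) : TwoSidedIdeal A :=
  TwoSidedIdeal.mk' {b | ∀ w, a * w * b ∈ K} (by intro w; simp [K.zero_mem])
    (by
      intro b c hb hc w
      rw [mul_add]
      exact K.add_mem (hb w) (hc w))
    (by
      intro b hb w
      rw [mul_neg]
      exact K.neg_mem (hb w))
    (by
      intro z b hb w
      have := hb (w * z)
      rwa [← mul_assoc, mul_assoc a w z] )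
    (by
      intro b z hb w
      rw [← mul_assoc]
      exact K.mul_mem_right _ _ (hb w))

lemma mem_colonR (K : TwoSidedIdeal A) (a b : A) : b ∈ colonR K a ↔ ∀ w, a * w * b ∈ K := by
  unfold colonR
  rw [TwoSidedIdeal.mem_mk']
  rfl

/-- the elements `a` such that `a w b ∈ K` for all `w` -/
def colonL (K : TwoSidedIdeal A) (b : A) : TwoSidedIdeal A :=
  TwoSidedIdeal.mk' {a | ∀ w, a * w * b ∈ K} (by intro w; simp [K.zero_mem])
    (by
      intro a c hb hc w
      rw [add_mul, add_mul]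
      exact K.add_mem (hb w) (hc w))
    (by
      intro a hb w
      rw [neg_mul, neg_mul]
      exact K.neg_mem (hb w))
    (by
      intro z a hb w
      rw [mul_assoc z a w, mul_assoc z (a * w) b]
      exact K.mul_mem_left _ _ (hb w))
    (by
      intro a z hb w
      have := hb (z * w)
      rwa [← mul_assoc] at this)

lemma mem_colonL (K : TwoSidedIdeal A) (b a : A) : a ∈ colonL K b ↔ ∀ w, a * w * b ∈ K := by
  unfold colonL
  rw [TwoSidedIdeal.mem_mk']
  rfl

end colon

lemma J_mul (m N : ℕ) (hN : 1 ≤ N) (a b : S) (ha : a ∈ J m N) (hb : b ∈ J m 1) :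
    a * b ∈ J m (N + 1) := by
  have h1 : J m N ≤ colonL (J m (N + 1)) (g m 1) := by
    refine TwoSidedIdeal.span_le.2 ?_
    rintro _ rfl
    show _ ∈ colonL (J m (N + 1)) (g m 1)
    rw [mem_colonL]
    intro w
    have := key m N hN w 0
    rwa [pow_zero, mul_one] at this
  have h2 := h1 ha
  rw [mem_colonL] at h2
  have h3 : J m 1 ≤ colonR (J m (N + 1)) a := by
    refine TwoSidedIdeal.span_le.2 ?_
    rintro _ rfl
    show _ ∈ colonR (J m (N + 1)) a
    rw [mem_colonR]
    exact h2
  have h4 := h3 hb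
  rw [mem_colonR] at h4
  have := h4 1
  rwa [mul_one] at this

lemma J_list (m : ℕ) (l : List S) (hl : ∀ b ∈ l, b ∈ J m 1) :
    ∀ N, 1 ≤ N → ∀ a ∈ J m N, a * l.prod ∈ J m (N + l.length) := by
  induction l with
  | nil =>
    intro N _ a ha
    simpa using ha
  | cons b l ih =>
    intro N hN a ha
    rw [List.prod_cons, ← mul_assoc, List.length_cons]
    have := ih (fun c hc => hl c (List.mem_cons_of_mem _ hc)) (N + 1) (by omega) (a * b)
      (J_mul m N hN a b ha (hl b List.mem_cons_self))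
    rwa [show N + (l.length + 1) = N + 1 + l.length by omega]

lemma J_zero (m : ℕ) (hm : 1 ≤ m) (a : S) (ha : a ∈ J m m) : a = 0 := by
  have h : J m m ≤ ⊥ := by
    refine TwoSidedIdeal.span_le.2 ?_
    rintro _ rfl
    show _ ∈ (⊥ : TwoSidedIdeal S)
    rw [TwoSidedIdeal.mem_bot]
    exact relx2 m hm
  have := h ha
  rwa [TwoSidedIdeal.mem_bot] at this

lemma J_nilpotent (m : ℕ) (hm : 1 ≤ m) (f : Fin m → S) (hf : ∀ i, f i ∈ J m 1) :
    (List.ofFn f).prod = 0 := by
  obtain ⟨k, rfl⟩ : ∃ k, m = k + 1 := ⟨m - 1, by omega⟩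
  rw [List.ofFn_succ, List.prod_cons]
  apply J_zero (k + 1) hm
  have := J_list (k + 1) (List.ofFn fun i => f i.succ) (by
    intro b hb
    rw [List.mem_ofFn] at hb
    obtain ⟨i, rfl⟩ := hb
    exact hf _) 1 le_rfl (f 0) (hf 0)
  rw [List.length_ofFn, add_comm 1 k] at this
  exact this

/-- the generating subspace -/
def V0 : Submodule ℚ S := Submodule.span ℚ {1, x, y}

/-- the words of length about `n` -/
noncomputable def words (n : ℕ) : Finset S := by
  classical
  exact (Finset.range (n + 1)).image (fun a => y ^ a) ∪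
    ((Finset.range (n + 1) ×ˢ Finset.range (n + 1)) ×ˢ
      (Finset.range (n + 1) ×ˢ Finset.range (n + 1))).image
      (fun t => y ^ t.1.1 * (x * y ^ t.1.2) ^ t.2.1 * x * y ^ t.2.2)

lemma mem_words (n : ℕ) (u : S) : u ∈ words n ↔ (∃ a, a ≤ n ∧ u = y ^ a) ∨
    ∃ a m j b, a ≤ n ∧ m ≤ n ∧ j ≤ n ∧ b ≤ n ∧ u = y ^ a * (x * y ^ m) ^ j * x * y ^ b := by
  classical
  unfold words
  rw [Finset.mem_union, Finset.mem_image, Finset.mem_image]
  constructor
  · rintro (⟨a, ha, rfl⟩ | ⟨⟨⟨a, m⟩, ⟨j, b⟩⟩, h, rfl⟩)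
    · exact Or.inl ⟨a, by simpa [Nat.lt_succ_iff] using ha, rfl⟩
    · simp only [Finset.mem_product, Finset.mem_range, Nat.lt_succ_iff] at h
      exact Or.inr ⟨a, m, j, b, h.1.1, h.1.2, h.2.1, h.2.2, rfl⟩
  · rintro (⟨a, ha, rfl⟩ | ⟨a, m, j, b, h1, h2, h3, h4, rfl⟩)
    · exact Or.inl ⟨a, by simpa [Nat.lt_succ_iff] using ha, rfl⟩
    · refine Or.inr ⟨⟨⟨a, m⟩, ⟨j, b⟩⟩, ?_, rfl⟩
      simp only [Finset.mem_product, Finset.mem_range, Nat.lt_succ_iff]
      exact ⟨⟨h1, h2⟩, h3, h4⟩

lemma card_words (n : ℕ) : (words n).card ≤ 2 * (n + 1) ^ 4 := by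
  classical
  unfold words
  refine (Finset.card_union_le _ _).trans ?_
  have h1 := Finset.card_image_le (s := Finset.range (n + 1)) (f := fun a => (y : S) ^ a)
  have h2 := Finset.card_image_le (s := ((Finset.range (n + 1) ×ˢ Finset.range (n + 1)) ×ˢ
      (Finset.range (n + 1) ×ˢ Finset.range (n + 1))))
      (f := fun t => (y : S) ^ t.1.1 * (x * y ^ t.1.2) ^ t.2.1 * x * y ^ t.2.2)
  simp only [Finset.card_product, Finset.card_range] at h1 h2
  have h3 : n + 1 ≤ (n + 1) ^ 4 := Nat.le_self_pow (by norm_num) _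
  calc _ ≤ (n + 1) + (n + 1) * (n + 1) * ((n + 1) * (n + 1)) := add_le_add h1 h2
    _ ≤ (n + 1) ^ 4 + (n + 1) ^ 4 := by
        refine add_le_add h3 (le_of_eq (by ring))
    _ = 2 * (n + 1) ^ 4 := by ring

lemma words_mono (n : ℕ) (u : S) (h : u ∈ words n) : u ∈ words (n + 1) := by
  rw [mem_words] at h ⊢
  rcases h with ⟨a, ha, rfl⟩ | ⟨a, m, j, b, h1, h2, h3, h4, rfl⟩
  · exact Or.inl ⟨a, by omega, rfl⟩
  · exact Or.inr ⟨a, m, j, b, by omega, by omega, by omega, by omega, rfl⟩

lemma words_y (n : ℕ) (u : S) (h : u ∈ words n) : u * y ∈ words (n + 1) := by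
  rw [mem_words] at h ⊢
  rcases h with ⟨a, ha, rfl⟩ | ⟨a, m, j, b, h1, h2, h3, h4, rfl⟩
  · exact Or.inl ⟨a + 1, by omega, (pow_succ _ _).symm⟩
  · refine Or.inr ⟨a, m, j, b + 1, by omega, by omega, by omega, by omega, ?_⟩
    rw [pow_succ]
    simp only [mul_assoc]

lemma words_x (n : ℕ) (u : S) (h : u ∈ words n) : u * x ∈ words (n + 1) ∨ u * x = 0 := by
  rw [mem_words] at h
  rcases h with ⟨a, ha, rfl⟩ | ⟨a, m, j, b, h1, h2, h3, h4, rfl⟩
  · left
    rw [mem_words]
    exact Or.inr ⟨a, 0, 0, 0, by omega, by omega, by omega, by omega, by simp⟩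
  · by_cases hj : j = 0
    · subst hj
      left
      rw [mem_words]
      refine Or.inr ⟨a, b, 1, 0, by omega, by omega, by omega, by omega, ?_⟩
      simp [mul_assoc]
    · by_cases hb : b = m
      · subst hb
        left
        rw [mem_words]
        refine Or.inr ⟨a, b, j + 1, 0, by omega, by omega, by omega, by omega, ?_⟩
        rw [pow_succ]
        simp [mul_assoc]
      · right
        have := g_ne m j (by omega) b hb
        unfold g at this
        calc _ = y ^ a * ((x * y ^ m) ^ j * x * y ^ b * x) := by simp only [mul_assoc]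
          _ = 0 := by rw [this, mul_zero]

lemma pow_le (n : ℕ) : V0 ^ n ≤ Submodule.span ℚ (words n : Set S) := by
  induction n with
  | zero =>
    rw [pow_zero, Submodule.one_eq_span]
    refine Submodule.span_mono ?_
    intro u hu
    rw [Set.mem_singleton_iff] at hu
    subst hu
    show _ ∈ words 0
    rw [mem_words]
    exact Or.inl ⟨0, le_rfl, by simp⟩
  | succ n ih =>
    rw [pow_succ]
    refine (Submodule.smul_mono ih le_rfl).trans ?_
    change Submodule.span ℚ (words n : Set S) * V0 ≤ _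
    unfold V0
    rw [Submodule.span_mul_span]
    refine Submodule.span_le.2 ?_
    rintro _ ⟨u, hu, v, hv, rfl⟩
    have hu' : u ∈ words n := hu
    show u * v ∈ Submodule.span ℚ (words (n + 1) : Set S)
    rcases hv with rfl | rfl | hv
    · rw [mul_one]
      exact Submodule.subset_span (words_mono n u hu')
    · rcases words_x n u hu' with h | h
      · exact Submodule.subset_span h
      · rw [h]; exact Submodule.zero_mem _
    · rw [Set.mem_singleton_iff] at hv
      subst hv
      exact Submodule.subset_span (words_y n u hu')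

lemma finrank_le (n : ℕ) : Module.finrank ℚ ↥(V0 ^ n) ≤ 2 * (n + 1) ^ 4 := by
  have : Module.Finite ℚ (Submodule.span ℚ (words n : Set S)) :=
    FiniteDimensional.span_finset ℚ (words n)
  exact (Submodule.finrank_mono (pow_le n)).trans
    ((finrank_span_finset_le_card (words n)).trans (card_words n))

/-- The negation of the preceding statement: Every finitely generated associative algebra over a field with polynomially bounded growth (finite GK dimension) has a nilpotent two-sided ideal containing every nilpotent two-sided ideal. -/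
theorem result :
    ¬ (∀ (k : Type) [Field k] (A : Type) [Ring A] [Algebra k A],
      Algebra.FiniteType k A →
      (∃ V : Submodule k A, FiniteDimensional k V ∧ (1 : A) ∈ V ∧
          Algebra.adjoin k (V : Set A) = ⊤ ∧
          ∃ C d : ℕ, ∀ n : ℕ, Module.finrank k ↥(V ^ n) ≤ C * (n + 1) ^ d) →
      ∃ N : TwoSidedIdeal A,
        (∃ m : ℕ, ∀ f : Fin m → A, (∀ i, f i ∈ N) → (List.ofFn f).prod = 0) ∧
        ∀ I : TwoSidedIdeal A,
          (∃ m : ℕ, ∀ f : Fin m → A, (∀ i, f i ∈ I) → (List.ofFn f).prod = 0) → I ≤ N) := by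
  intro H
  have hadj : Algebra.adjoin ℚ (V0 : Set S) = ⊤ := by
    rw [eq_top_iff, ← adjoin_xy]
    refine Algebra.adjoin_mono ?_
    refine Set.Subset.trans ?_ (Submodule.subset_span (s := ({1, x, y} : Set S)))
    intro z hz
    exact Set.mem_insert_of_mem _ hz
  have hft : Algebra.FiniteType ℚ S := by
    classical
    refine ⟨⟨({x, y} : Finset S), ?_⟩⟩
    have : ((({x, y} : Finset S)) : Set S) = {x, y} := by simp
    rw [this]
    exact adjoin_xy
  obtain ⟨N, ⟨M, hM⟩, hN⟩ := H ℚ S
    hft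
    ⟨V0, FiniteDimensional.span_of_finite ℚ
      ((Set.finite_singleton y).insert x |>.insert 1), Submodule.subset_span (by simp), hadj,
      2, 4, finrank_le⟩
  have h1 : J (2 * M + 1) 1 ≤ N := hN _ ⟨2 * M + 1, J_nilpotent (2 * M + 1) (by omega)⟩
  have h2 := hM (fun _ => g (2 * M + 1) 1 * y ^ (2 * M + 1)) (fun i =>
    TwoSidedIdeal.mul_mem_right _ _ _ (h1 (g_mem _ _)))
  rw [List.ofFn_const, List.prod_replicate] at h2
  apply relx3 (2 * M + 1) (2 * M) (by omega)
  rw [pow_mul]
  rw [← h2]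
  have e : (x * y ^ (2 * M + 1)) ^ 2 = g (2 * M + 1) 1 * y ^ (2 * M + 1) := by
    rw [pow_two, g, pow_one]
    simp only [mul_assoc]
  rw [e]

end Pool.Agent.S02538
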