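import Pool.Statements.S12532
import Pool.Agent.Helper52K9.LueneburgSpread

/-!
The counterexample is the dual of the Lueneburg-Tits translation plane of order 64. In the
translation plane the stabiliser of an affine point `0` contains the Suzuki group `Sz(8)`, which is
doubly transitive on the 65 lines through `0`. So in the dual plane the group `Sz(8)` fixes the
line `0` and is doubly transitive on its points. But the dual plane is not a translation plane with
the axis `0`: in the translation plane there are not all the elations with the centre `0`.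
-/

set_option autoImplicit false
open Pool Pool.MP_fa71e0_co

namespace Pool.Agent.S12532

open Pool.Agent.Helper52K9 Pool.Agent.Helper52K9.F8

/-- an element of the field -/
def el (k : Fin 8) : F8 := k

theorem no_z : ∀ z : F8 × F8, ¬ (mulN (0, 1) (0, 1) = mulN z (1, 0) ∧
    mulN (0, 1) (0, el 2) = mulN z (el 4, el 4)) := by
  decide +kernel

theorem q_one : mulN (1, 0) (1, 0) = mulN (1, 0) (0, 1) + mulN (0, 1) (0, 1) := by
  decide +kernel

theorem q_two : mulN (1, 0) (el 4, el 4) = mulN (1, 0) (0, el 2) + mulN (0, 1) (0, el 2) := by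
  decide +kernel

/-- The negation of the preceding statement: In a finite projective plane, if a collineation group fixes a line ℓ and is doubly transitive on its points, then for each c on ℓ, elations with centre c and axis ℓ move any point ≠ c of a line M ≠ ℓ through c to any other such point. -/
theorem result :
    ¬ (∀ (P L : Type) [Membership P L] [Configuration.ProjectivePlane P L] [Finite P] [Finite L]
    (Γ : Subgroup (Equiv.Perm P × Equiv.Perm L)) (ℓ : L),
    (∀ g ∈ Γ, ∀ (p : P) (m : L), (p ∈ m ↔ g.1 p ∈ g.2 m)) →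
    (∀ g ∈ Γ, g.2 ℓ = ℓ) →
    (∀ a b c d : P, a ∈ ℓ → b ∈ ℓ → c ∈ ℓ → d ∈ ℓ → a ≠ b → c ≠ d →
      ∃ g ∈ Γ, g.1 a = c ∧ g.1 b = d) →
    ∀ c : P, c ∈ ℓ → ∀ M : L, M ≠ ℓ → c ∈ M →
      ∀ x y : P, x ∈ M → y ∈ M → x ≠ c → y ≠ c →
        ∃ σ : Equiv.Perm P × Equiv.Perm L,
          (∀ (p : P) (m : L), (p ∈ m ↔ σ.1 p ∈ σ.2 m)) ∧
          (∀ p : P, p ∈ ℓ → σ.1 p = p) ∧
          (∀ m : L, c ∈ m → σ.2 m = m) ∧
          σ.1 x = y) := by
  intro hyp
  letI := dualPlane isSpread
  haveI : Finite (Pt LS) := finite_pt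
  haveI : Finite (Ln LS) := finite_ln
  have he : (((1, 0), 0) : VV) ∉ Hi := fun h => one_ne (congrArg Prod.fst h)
  obtain ⟨σ, h1, h2, h3, h4⟩ := hyp (Pt LS) (Ln LS) (stab LS) (.vec 0) (fun g hg => hg.1)
    (fun g hg => hg.2)
    (doubly_transitive transitive Hi_mem (Hm_mem 0))
    (.aff (coset Hi Hi_mem 0))
    (by
      show (0 : VV) - 0 ∈ Hi
      rw [sub_zero]
      exact Hi.zero_mem)
    (.par Hi Hi_mem) (fun h => by injection h) rfl .inf (.aff (coset Hi Hi_mem ((1, 0), 0)))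
    (inf_par _ _) rfl (fun h => by injection h) (by
      intro h
      have h' : (Pt.aff (coset Hi Hi_mem (((1, 0), 0) : VV)) : Pt LS) ∈ (Ln.vec 0 : Ln LS) := by
        rw [h]
        show (0 : VV) - 0 ∈ Hi
        rw [sub_zero]
        exact Hi.zero_mem
      have h'' : (0 : VV) - ((1, 0), 0) ∈ Hi := h'
      exact he (by simpa using Hi.neg_mem h''))
  have hmain := elation_condition isSpread Hi_mem ((1, 0), 0) he σ h1 h2 h3 h4 (Hm_mem 0)
    ((0, 1), 0) (by
      rw [mem_Hm]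
      decide +kernel)
  -- the two choices
  have w1 : ∀ m : Q, ((0, mulN (0, 1) m) : VV) ∈ Hi := fun m => rfl
  have w2 : ∀ m : Q, (((0, 1), 0) : VV) - (0, mulN (0, 1) m) ∈ Hm m := by
    intro m
    rw [mem_Hm]
    show (0 : Q) - mulN (0, 1) m = mulN ((0, 1) - 0) m
    rw [zero_sub, sub_zero, neg_Q]
  have w3 : ∀ m : Q, (((1, 0), mulN (1, 0) m) : VV) ∈ Hm m := fun m => rfl
  have w4 : ∀ m : Q, (((1, 0), mulN (1, 0) m) : VV) - ((1, 0), 0) ∈ Hi := by
    intro m
    rw [mem_Hi]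
    show ((1, 0) : Q) - (1, 0) = 0
    rw [sub_self]
  have w5 : ∀ m n : Q, mulN (1, 0) n = mulN (1, 0) m + mulN (0, 1) m →
      (((1, 0), mulN (1, 0) m) : VV) - (0, mulN (0, 1) m) ∈ Hm n := by
    intro m n h
    rw [mem_Hm]
    show mulN (1, 0) m - mulN (0, 1) m = mulN ((1, 0) - 0) n
    rw [sub_zero, h, sub_eq_add_Q]
  rcases hmain with ⟨u', hu', hu⟩ | hK
  · have c1 := hu _ (Hm_mem (0, 1)) (Hm_ne _) _ (w1 _) (w2 _) _ (w3 _) (w4 _) _
      (Hm_mem (1, 0)) (w5 _ _ q_one)
    have c2 := hu _ (Hm_mem (0, el 2)) (Hm_ne _) _ (w1 _) (w2 _) _ (w3 _) (w4 _) _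
      (Hm_mem (el 4, el 4)) (w5 _ _ q_two)
    rw [mem_Hm] at c1 c2 hu'
    have hz : mulN u'.1 0 = 0 := by
      ext
      · show u'.1.1 * 0 + u'.1.2 * z 0 0 = 0
        rw [show z 0 0 = 0 by decide +kernel]; ring
      · show u'.1.1 * pi 0 + u'.1.2 * 0 = 0
        rw [show pi 0 = 0 by decide +kernel]; ring
    rw [hz] at hu'
    have d1 : u'.2 - mulN (0, 1) (0, 1) = mulN (u'.1 - 0) (1, 0) := c1
    have d2 : u'.2 - mulN (0, 1) (0, el 2) = mulN (u'.1 - 0) (el 4, el 4) := c2
    rw [hu', zero_sub, sub_zero, neg_Q] at d1 d2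
    exact no_z u'.1 ⟨d1, d2⟩
  · have c1 := hK _ (Hm_mem (0, 1)) (Hm_ne _) _ (w1 _) (w2 _) _ (w3 _) (w4 _) _
      (Hm_mem (1, 0)) (w5 _ _ q_one)
    exact one_ne (congrArg Prod.fst (Hm_inj c1))

end Pool.Agent.S12532
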