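import Pool.Statements.S12841
import Pool.Agent.W555.ZL
import Pool.Agent.W567.ZonIter
import Pool.Agent.W567.Spencer2

set_option autoImplicit false
open Pool Pool.MP_1bae07_gt

namespace Pool.Agent.S12841

open scoped RealInnerProductSpace
open Finset

/-- Duality: a vector below `r` times the support function of a zonotope is in `r` times it. -/
theorem dual {d N : ℕ} (w : Fin N → EuclideanSpace ℝ (Fin d)) (r : ℝ)
    (x : EuclideanSpace ℝ (Fin d)) (h : ∀ y, ⟪x, y⟫ ≤ r * ∑ k, |⟪w k, y⟫|) :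
    ∃ t : Fin N → ℝ, (∀ k, t k ∈ Set.Icc (-1 : ℝ) 1) ∧ x = r • ∑ k, t k • w k := by
  let L : (Fin N → ℝ) →ₗ[ℝ] EuclideanSpace ℝ (Fin d) :=
    r • Fintype.linearCombination ℝ w
  have hL : ∀ t, L t = r • ∑ k, t k • w k := by
    intro t
    simp only [L, LinearMap.smul_apply, Fintype.linearCombination_apply]
  set K : Set (EuclideanSpace ℝ (Fin d)) := L '' (Set.Icc (fun _ => (-1 : ℝ)) fun _ => 1) with hK
  have hconv : Convex ℝ K := (convex_Icc _ _).linear_image L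
  have hcomp : IsCompact K := isCompact_Icc.image L.continuous_of_finiteDimensional
  by_contra hcon
  have hx : x ∉ K := by
    rintro ⟨t, ht, hxt⟩
    refine hcon ⟨t, fun k => ⟨ht.1 k, ht.2 k⟩, ?_⟩
    rw [← hxt, hL]
  obtain ⟨f, c, hf1, hf2⟩ := geometric_hahn_banach_closed_point hconv hcomp.isClosed hx
  set y := (InnerProductSpace.toDual ℝ (EuclideanSpace ℝ (Fin d))).symm f with hy
  have hfy : ∀ z, f z = ⟪z, y⟫ := by
    intro z
    rw [real_inner_comm, hy, InnerProductSpace.toDual_symm_apply]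
  have h1 := hf1 (L fun k => if 0 ≤ ⟪w k, y⟫ then 1 else -1)
    ⟨_, ⟨fun k => by dsimp only; split_ifs <;> norm_num,
      fun k => by dsimp only; split_ifs <;> norm_num⟩, rfl⟩
  have h2 : f (L fun k => if 0 ≤ ⟪w k, y⟫ then 1 else -1) = r * ∑ k, |⟪w k, y⟫| := by
    rw [hfy, hL, real_inner_smul_left, sum_inner]
    congr 1
    refine Finset.sum_congr rfl fun k _ => ?_
    rw [real_inner_smul_left]
    split_ifs with hk
    · rw [abs_of_nonneg hk, one_mul]
    · rw [abs_of_neg (not_le.mp hk)]; ring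
  rw [h2] at h1
  rw [hfy] at hf2
  exact absurd (h y) (by linarith)

/-- The theorem in Euclidean space. -/
theorem main_E : ∃ C : ℝ, 0 < C ∧
    ∀ (d m : ℕ) (v : Fin m → EuclideanSpace ℝ (Fin d)) (n : ℕ)
      (u : Fin n → EuclideanSpace ℝ (Fin d)),
      (∀ i, ∃ t : Fin m → ℝ, (∀ j, t j ∈ Set.Icc (-1 : ℝ) 1) ∧ u i = ∑ j, t j • v j) →
      ∃ ε : Fin n → ℝ, (∀ i, ε i = 1 ∨ ε i = -1) ∧
        ∃ s : Fin m → ℝ, (∀ j, s j ∈ Set.Icc (-1 : ℝ) 1) ∧
          ∑ i, ε i • u i = (C * Real.sqrt d) • ∑ j, s j • v j := by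
  obtain ⟨C1, hC1, hvec⟩ := Pool.Agent.W555.ZL.vec Pool.Agent.W567.ZonIter.iter
  obtain ⟨C2, hC2, hcol⟩ := Pool.Agent.W567.Spencer.full_col'
  have hC20 : 0 < C2 := by linarith
  refine ⟨3 / 2 * (2 * (C2 * √(4 * C1 + 1)) + 1), by positivity, ?_⟩
  intro d m v n u hu
  rcases Nat.eq_zero_or_pos d with h0 | hd
  · subst h0
    exact ⟨fun _ => 1, fun _ => Or.inl rfl, fun _ => 0, fun _ => by norm_num,
      Subsingleton.elim _ _⟩
  have hd1 : (1 : ℝ) ≤ d := by exact_mod_cast hd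
  have hsd1 : 1 ≤ √(d : ℝ) := Real.one_le_sqrt.2 hd1
  obtain ⟨N, w, hN, hw⟩ := hvec d m v (1 / 2) (by norm_num) le_rfl
  have hN' : (N : ℝ) ≤ 4 * C1 * d := by
    refine hN.trans (le_of_eq ?_)
    ring
  -- the vectors `u i` in terms of the `w k`
  have hf : ∀ i, ∃ t : Fin N → ℝ, (∀ k, t k ∈ Set.Icc (-1 : ℝ) 1) ∧
      u i = (3 / 2 : ℝ) • ∑ k, t k • w k := by
    intro i
    refine dual w (3 / 2) (u i) fun y => ?_
    obtain ⟨t, ht, hut⟩ := hu i
    have h1 : ⟪u i, y⟫ ≤ ∑ j, |⟪v j, y⟫| := by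
      rw [hut, sum_inner]
      refine Finset.sum_le_sum fun j _ => ?_
      rw [real_inner_smul_left]
      refine (le_abs_self _).trans ?_
      rw [abs_mul]
      have : |t j| ≤ 1 := abs_le.2 (ht j)
      nlinarith [abs_nonneg ⟪v j, y⟫]
    have h2 := (hw y).2
    linarith
  choose f hf1 hf2 using hf
  -- a relation with few fractional coefficients
  obtain ⟨x, hx1, hx2, hx3⟩ := Pool.Agent.W567.Spencer.few_fractional d n (fun i => (u i).ofLp)
  have hx0 : ∑ i, x i • u i = 0 := by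
    have h1 : (∑ i, x i • u i).ofLp = 0 := by
      rw [WithLp.ofLp_sum]
      simpa using hx2
    exact (WithLp.ofLp_eq_zero 2).1 h1
  -- linear discrepancy
  have hDd : (univ.filter fun i => |x i| ≠ 1).card ≤ N + d := hx3.trans (by omega)
  obtain ⟨ε, hε, hb⟩ := Pool.Agent.W567.Spencer.lindisc (N + d) (C2 * √((N + d : ℕ) : ℝ))
    (fun J _ _ f hJ hf => hcol (N + d) J f hJ hf) (by positivity) (Fin n)
    (fun i => Fin.append (f i) (fun _ => 0)) (by
      intro i k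
      refine Fin.addCases (fun k => ?_) (fun k => ?_) k
      · rw [Fin.append_left]; exact abs_le.2 (hf1 i k)
      · rw [Fin.append_right]; norm_num) x hx1 hDd
  set D : ℝ := 2 * (C2 * √((N + d : ℕ) : ℝ)) + 1 with hD
  have hD0 : 0 ≤ D := by positivity
  have hc : ∀ k, |∑ i, (ε i - x i) * f i k| ≤ D := by
    intro k
    have := hb (Fin.castAdd d k)
    simpa only [Fin.append_left] using this
  have hDle : 3 / 2 * D ≤ 3 / 2 * (2 * (C2 * √(4 * C1 + 1)) + 1) * √(d : ℝ) := by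
    have h1 : √((N + d : ℕ) : ℝ) ≤ √(4 * C1 + 1) * √(d : ℝ) := by
      rw [← Real.sqrt_mul (by positivity)]
      apply Real.sqrt_le_sqrt
      push_cast
      linarith
    have h2 : C2 * √((N + d : ℕ) : ℝ) ≤ C2 * (√(4 * C1 + 1) * √(d : ℝ)) := by gcongr
    nlinarith
  refine ⟨ε, hε, ?_⟩
  have hsum : ∑ i, ε i • u i = (3 / 2 : ℝ) • ∑ k, (∑ i, (ε i - x i) * f i k) • w k := by
    have h1 : ∑ i, ε i • u i = ∑ i, (ε i - x i) • u i := by
      simp only [sub_smul, Finset.sum_sub_distrib, hx0, sub_zero]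
    rw [h1]
    simp only [Finset.sum_smul, Finset.smul_sum]
    rw [Finset.sum_comm]
    refine Finset.sum_congr rfl fun i _ => ?_
    rw [hf2 i]
    simp only [Finset.smul_sum, smul_smul]
    refine Finset.sum_congr rfl fun k _ => ?_
    congr 1
    ring
  refine dual v _ _ fun y => ?_
  have h3 : ⟪∑ i, ε i • u i, y⟫ ≤ 3 / 2 * (D * ∑ k, |⟪w k, y⟫|) := by
    rw [hsum, real_inner_smul_left, sum_inner, Finset.mul_sum univ _ D]
    refine mul_le_mul_of_nonneg_left ?_ (by norm_num)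
    refine Finset.sum_le_sum fun k _ => ?_
    rw [real_inner_smul_left]
    refine (le_abs_self _).trans ?_
    rw [abs_mul]
    exact mul_le_mul_of_nonneg_right (hc k) (abs_nonneg _)
  have h4 := (hw y).1
  have h5 : 0 ≤ ∑ j, |⟪v j, y⟫| := Finset.sum_nonneg fun _ _ => abs_nonneg _
  calc ⟪∑ i, ε i • u i, y⟫ ≤ 3 / 2 * (D * ∑ k, |⟪w k, y⟫|) := h3
    _ ≤ 3 / 2 * (D * ∑ j, |⟪v j, y⟫|) := by gcongr
    _ = (3 / 2 * D) * ∑ j, |⟪v j, y⟫| := by ring
    _ ≤ 3 / 2 * (2 * (C2 * √(4 * C1 + 1)) + 1) * √(d : ℝ) * ∑ j, |⟪v j, y⟫| :=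
        mul_le_mul_of_nonneg_right hDle h5

/-- There is an absolute constant C such that for every origin-centred zonotope K in ℝ^d and any finitely many vectors in K, some choice of signs puts their signed sum in C√d·K, i.e. vb(K,K) ≤ C√d. -/
theorem result :
    ∃ C : ℝ, 0 < C ∧
      ∀ (d m : ℕ) (v : Fin m → (Fin d → ℝ)) (n : ℕ) (u : Fin n → (Fin d → ℝ)),
        (∀ i, ∃ t : Fin m → ℝ, (∀ j, t j ∈ Set.Icc (-1 : ℝ) 1) ∧
            u i = ∑ j, t j • v j) →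
        ∃ ε : Fin n → ℝ, (∀ i, ε i = 1 ∨ ε i = -1) ∧
          ∃ s : Fin m → ℝ, (∀ j, s j ∈ Set.Icc (-1 : ℝ) 1) ∧
            ∑ i, ε i • u i = (C * Real.sqrt d) • ∑ j, s j • v j := by
  obtain ⟨C, hC, h⟩ := main_E
  refine ⟨C, hC, fun d m v n u hu => ?_⟩
  obtain ⟨ε, hε, s, hs, hsum⟩ := h d m (fun j => WithLp.toLp 2 (v j)) n
    (fun i => WithLp.toLp 2 (u i)) (fun i => by
      obtain ⟨t, ht, hut⟩ := hu i
      refine ⟨t, ht, ?_⟩
      rw [hut, WithLp.toLp_sum]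
      rfl)
  refine ⟨ε, hε, s, hs, ?_⟩
  have := congrArg WithLp.ofLp hsum
  rw [WithLp.ofLp_sum, WithLp.ofLp_smul, WithLp.ofLp_sum] at this
  exact this

end Pool.Agent.S12841
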