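import Pool.Statements.S14496
import Pool.Agent.H468R2.MA.P_T_BF
import Pool.Agent.H468R2.MA.P_T_C
import Pool.Agent.H468R2.MA.P_T_CH
import Pool.Agent.H468R2.MA.P_T_LOC
import Pool.Agent.H468R2.MA.P_T_LOC1
import Pool.Agent.H468R2.MA.P_T_SC
import Pool.Agent.Helper80K9.TB.Tor

/-!
# Measure isomorphism of smooth ergodic diffeomorphisms is not classifiable by countable structures

On the torus, let `T_x (u, v) = (u + a, v + phi_x u)` with a Liouville number `a` and smooth
functions `phi_x` parametrised by the sequences `x` of real numbers. All these maps are ergodic.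
Adding an element of `ℓ¹` to `x` changes `phi_x` by a coboundary, which gives an isomorphic map. By
generic ergodicity of the action of `ℓ¹` (turbulence), a Borel function to countable graphs that is
constant on isomorphism classes up to isomorphism of graphs is so on a comeagre set. But for a
generic pair `x`, `y` there are times along which `T_x`, but not `T_y`, converges to the identity.
-/

set_option autoImplicit false
open MeasureTheory
open scoped Manifold ContDiff
open Pool Pool.MP_2602dd_lc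

namespace Pool.Agent.S14496

open Pool.Agent.Helper80K9.TB
open Pool.Agent.Helper449.RC (T2)
open Filter Topology

/-- the space of smooth ergodic volume preserving diffeomorphisms of the torus -/
abbrev SE : Type := {T : Diffeomorph (𝓡 2) (𝓡 2) T2 T2 ∞ //
  MeasurePreserving (⇑T) vol vol ∧ Ergodic (⇑T) vol}

/-- the family -/
noncomputable def fam (x : ℕ → ℝ) : SE := ⟨df x, Tm_mp x, Tm_ergodic x⟩

theorem erg : Pool.Agent.H468R2.MA.T_ERG :=
  Pool.Agent.H468R2.MA.t_T_ERG (Pool.Agent.H468R2.MA.t_T_C Pool.Agent.H468R2.MA.t_T_SC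
    (Pool.Agent.H468R2.MA.t_T_LOC Pool.Agent.H468R2.MA.t_T_SC
      (Pool.Agent.H468R2.MA.t_T_LOC1 Pool.Agent.H468R2.MA.t_T_SC))) Pool.Agent.H468R2.MA.t_T_CH

theorem not_reducible (f : SE → (ℕ → ℕ → Bool))
    (hf : @Measurable SE (ℕ → ℕ → Bool)
      (MeasurableSpace.comap (fun T : SE => (⇑T.1 : T2 → T2))
        (inferInstance : MeasurableSpace (T2 → T2)))
      (inferInstance : MeasurableSpace (ℕ → ℕ → Bool)) f)
    (hiso : ∀ S T : SE,
      (∃ φ ψ : T2 → T2, MeasurePreserving φ vol vol ∧ MeasurePreserving ψ vol vol ∧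
        ψ ∘ φ =ᵐ[vol] id ∧ φ ∘ ψ =ᵐ[vol] id ∧ φ ∘ (⇑S.1) =ᵐ[vol] (⇑T.1) ∘ φ) ↔
      (∃ σ : Equiv.Perm ℕ, ∀ i j : ℕ, f S i j = f T (σ i) (σ j))) : False := by
  have hfam : @Measurable (ℕ → ℝ) SE inferInstance
      (MeasurableSpace.comap (fun T : SE => (⇑T.1 : T2 → T2))
        (inferInstance : MeasurableSpace (T2 → T2))) fam := by
    rw [measurable_comap_iff, measurable_pi_iff]
    exact measurable_df
  have hF : Measurable fun x : ℕ → ℝ => f (fam x) :=
    @Measurable.comp _ _ _ _ (MeasurableSpace.comap (fun T : SE => (⇑T.1 : T2 → T2))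
        (inferInstance : MeasurableSpace (T2 → T2))) _ _ _ hf hfam
  let F : (ℕ → ℝ) → Pool.Agent.H468R2.MA.RS Unit (fun _ => 2) :=
    fun x _ a => f (fam x) (a 0) (a 1) = true
  have hHm : Pool.Agent.H468R2.MA.Hm F := by
    constructor
    · intro r a
      have h1 : Measurable fun x : ℕ → ℝ => f (fam x) (a 0) (a 1) :=
        ((measurable_pi_apply (a 1)).comp ((measurable_pi_apply (a 0)).comp hF))
      exact h1 (measurableSet_singleton true)
    · intro x y hxy
      obtain ⟨σ, hσ⟩ := (hiso (fam x) (fam y)).1 (miso_of_summable hxy)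
      refine ⟨σ, fun r a => ?_⟩
      show f (fam y) (σ (a 0)) (σ (a 1)) = true ↔ f (fam x) (a 0) (a 1) = true
      rw [hσ (a 0) (a 1)]
  obtain ⟨C, hC, hCi⟩ := erg Unit (fun _ => 2) F hHm
  obtain ⟨x, hx, y, hy, hxy⟩ := exists_gn hC
  obtain ⟨σ, hσ⟩ := hCi x hx y hy
  refine not_miso hxy ((hiso (fam x) (fam y)).2 ⟨σ, fun i j => ?_⟩)
  have h1 : f (fam y) (σ i) (σ j) = true ↔ f (fam x) i j = true := hσ () ![i, j]
  rw [Bool.eq_iff_iff]
  exact h1.symm

/-- The negation of the preceding statement: For every compact connected boundaryless smooth manifold of dimension at least 2 with a smooth volume, measure isomorphism of smooth ergodic volume-preserving diffeomorphisms is Borel bi-reducible with isomorphism of countable binary relations on ℕ. -/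
theorem result :
    ¬ (∀ (n : ℕ), 2 ≤ n →
  ∀ (M : Type) [TopologicalSpace M] [ChartedSpace (EuclideanSpace ℝ (Fin n)) M]
    [IsManifold (𝓡 n) ∞ M] [CompactSpace M] [ConnectedSpace M] [T2Space M]
    [MeasurableSpace M] [BorelSpace M] (ν : Measure M),
    (∀ e ∈ atlas (EuclideanSpace ℝ (Fin n)) M, ∃ ρ : EuclideanSpace ℝ (Fin n) → ℝ,
        ContDiffOn ℝ ∞ ρ e.target ∧ (∀ y ∈ e.target, 0 < ρ y) ∧
        Measure.map (⇑e) (ν.restrict e.source) =
          (volume.withDensity (fun y => ENNReal.ofReal (ρ y))).restrict e.target) →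
    (∃ f : {T : Diffeomorph (𝓡 n) (𝓡 n) M M ∞ //
              MeasurePreserving (⇑T) ν ν ∧ Ergodic (⇑T) ν} → (ℕ → ℕ → Bool),
       @Measurable {T : Diffeomorph (𝓡 n) (𝓡 n) M M ∞ //
              MeasurePreserving (⇑T) ν ν ∧ Ergodic (⇑T) ν} (ℕ → ℕ → Bool)
         (MeasurableSpace.comap
           (fun T : {T : Diffeomorph (𝓡 n) (𝓡 n) M M ∞ //
              MeasurePreserving (⇑T) ν ν ∧ Ergodic (⇑T) ν} => (⇑T.1 : M → M))
           (inferInstance : MeasurableSpace (M → M)))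
         (inferInstance : MeasurableSpace (ℕ → ℕ → Bool)) f ∧
       ∀ S T : {T : Diffeomorph (𝓡 n) (𝓡 n) M M ∞ //
              MeasurePreserving (⇑T) ν ν ∧ Ergodic (⇑T) ν},
         (∃ φ ψ : M → M, MeasurePreserving φ ν ν ∧ MeasurePreserving ψ ν ν ∧
            ψ ∘ φ =ᵐ[ν] id ∧ φ ∘ ψ =ᵐ[ν] id ∧ φ ∘ (⇑S.1) =ᵐ[ν] (⇑T.1) ∘ φ) ↔
         (∃ σ : Equiv.Perm ℕ, ∀ i j : ℕ, f S i j = f T (σ i) (σ j))) ∧
    (∃ g : (ℕ → ℕ → Bool) → {T : Diffeomorph (𝓡 n) (𝓡 n) M M ∞ //
              MeasurePreserving (⇑T) ν ν ∧ Ergodic (⇑T) ν},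
       @Measurable (ℕ → ℕ → Bool) {T : Diffeomorph (𝓡 n) (𝓡 n) M M ∞ //
              MeasurePreserving (⇑T) ν ν ∧ Ergodic (⇑T) ν}
         (inferInstance : MeasurableSpace (ℕ → ℕ → Bool))
         (MeasurableSpace.comap
           (fun T : {T : Diffeomorph (𝓡 n) (𝓡 n) M M ∞ //
              MeasurePreserving (⇑T) ν ν ∧ Ergodic (⇑T) ν} => (⇑T.1 : M → M))
           (inferInstance : MeasurableSpace (M → M))) g ∧
       ∀ G H : ℕ → ℕ → Bool,
         (∃ σ : Equiv.Perm ℕ, ∀ i j : ℕ, G i j = H (σ i) (σ j)) ↔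
         (∃ φ ψ : M → M, MeasurePreserving φ ν ν ∧ MeasurePreserving ψ ν ν ∧
            ψ ∘ φ =ᵐ[ν] id ∧ φ ∘ ψ =ᵐ[ν] id ∧
            φ ∘ (⇑(g G).1) =ᵐ[ν] (⇑(g H).1) ∘ φ))) := by
  intro h
  obtain ⟨⟨f, hf, hiso⟩, -⟩ := h 2 le_rfl Pool.Agent.Helper449.RC.T2 Pool.Agent.Helper80K9.TB.vol
    Pool.Agent.Helper80K9.TB.vol_chart
  exact not_reducible f hf hiso

end Pool.Agent.S14496
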